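import Pool.Agent.D0H28.WK.Main

set_option autoImplicit false

/-!
For every uniformly separated metric space `M`, De Blasi's measure of weak non-compactness is at
most 27 times the measure `wk` on the bounded subsets of the Lipschitz-free space of `M`.
-/

namespace Pool.Agent.Results.MP_6e86bf_an.MeasuresEquivalent

open Pool.Agent.D0H28.WK

universe u

/-- De Blasi's measure `ω` and the measure `wk` are equivalent, with the constant 27, in the
Lipschitz-free space of every uniformly separated metric space. -/
theorem result (M : Type u) [MetricSpace M] (o : M)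
    (hM : ∃ θ : ℝ, 0 < θ ∧ ∀ x y : M, x ≠ y → θ ≤ dist x y)
    (A : Set (FreeSpace M o)) (hA : Bornology.IsBounded A) :
    deBlasi A ≤ 27 * wk A := by
  obtain ⟨θ, hθ, hsep⟩ := hM
  exact main_abs (freeLike M o) hθ hsep A hA

end Pool.Agent.Results.MP_6e86bf_an.MeasuresEquivalent
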